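import Pool.Agent.Run7.h982.BT.Iface

set_option autoImplicit false
set_option linter.unusedSimpArgs false

/-! Pieces CUNTZ, ROT, PATH of the project BT (MP_90d4f1_an, Q2). -/

open Set Filter Topology

namespace Run7.h648.BT

open Pool.Agent.W744.BU Pool.Agent.Run7.h982.BT

section
variable {B : Type} [CStarAlgebra B] {p q x : B}

lemma rot_x_p (h : Rot p q x) : x * p = x := by
  have h1 : star (x - x * p) * (x - x * p) = 0 := by
    have e : star (x - x * p) * (x - x * p)
        = star x * x - (star x * x) * p - p * (star x * x) + p * (star x * x) * p := by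
      rw [star_sub, star_mul, h.sp]
      noncomm_ring
    rw [e, h.xp, h.pp, h.pp]
    noncomm_ring
  exact (sub_eq_zero.1 (CStarRing.star_mul_self_eq_zero_iff _ |>.1 h1)).symm

lemma rot_q_x (h : Rot p q x) : q * x = x := by
  rw [← h.xq, mul_assoc, h.xp, rot_x_p h]

lemma rot_p_x (h : Rot p q x) : p * x = 0 := by
  rw [← rot_q_x h, ← mul_assoc, h.pq, zero_mul]

lemma rot_x_q (h : Rot p q x) : x * q = 0 := by
  rw [← rot_x_p h, mul_assoc, h.pq, mul_zero]

lemma rot_x_x (h : Rot p q x) : x * x = 0 := by
  calc x * x = x * (q * x) := by rw [rot_q_x h]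
    _ = 0 := by rw [← mul_assoc, rot_x_q h, zero_mul]

lemma rot_q_p (h : Rot p q x) : q * p = 0 := by
  have := congrArg star h.pq
  rwa [star_mul, star_zero, h.sp, h.sq] at this

lemma rot_sx_p (h : Rot p q x) : star x * p = 0 := by
  have := congrArg star (rot_p_x h)
  rwa [star_mul, star_zero, h.sp] at this

lemma rot_q_sx (h : Rot p q x) : q * star x = 0 := by
  have := congrArg star (rot_x_q h)
  rwa [star_mul, star_zero, h.sq] at this

lemma rot_sx_q (h : Rot p q x) : star x * q = star x := by
  have := congrArg star (rot_q_x h)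
  rwa [star_mul, h.sq] at this

lemma rot_p_sx (h : Rot p q x) : p * star x = star x := by
  have := congrArg star (rot_x_p h)
  rwa [star_mul, h.sp] at this

lemma rot_sx_sx (h : Rot p q x) : star x * star x = 0 := by
  have := congrArg star (rot_x_x h)
  rwa [star_mul, star_zero] at this

/-- the rotation -/
noncomputable def RR (p q x : B) (c s : ℝ) : B :=
  1 - (p + q) + (c : ℂ) • (p + q) + (s : ℂ) • (x - star x)

lemma star_RR (h : Rot p q x) (c s : ℝ) : star (RR p q x c s) = RR p q x c (-s) := by
  unfold RR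
  simp only [star_add, star_sub, star_one, star_smul, h.sp, h.sq, star_star, RCLike.star_def,
    Complex.conj_ofReal, Complex.ofReal_neg]
  module

lemma RR_mul (h : Rot p q x) (c s : ℝ) (hcs : c ^ 2 + s ^ 2 = 1) :
    RR p q x c s * RR p q x c (-s) = 1 := by
  have haa : (p + q) * (p + q) = p + q := by
    simp only [mul_add, add_mul, h.pp, h.qq, h.pq, rot_q_p h]
    abel
  have hay : (p + q) * (x - star x) = x - star x := by
    simp only [mul_sub, add_mul, rot_p_x h, rot_q_x h, rot_p_sx h, rot_q_sx h]
    abel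
  have hya : (x - star x) * (p + q) = x - star x := by
    simp only [mul_add, sub_mul, rot_x_p h, rot_x_q h, rot_sx_p h, rot_sx_q h]
    abel
  have hyy : (x - star x) * (x - star x) = -(p + q) := by
    simp only [mul_sub, sub_mul, rot_x_x h, h.xq, h.xp, rot_sx_sx h]
    abel
  have hc : (c : ℂ) * c + s * s = 1 := by
    have : ((c ^ 2 + s ^ 2 : ℝ) : ℂ) = 1 := by rw [hcs]; simp
    push_cast at this
    linear_combination this
  unfold RR
  generalize p + q = a at *
  generalize x - star x = y at *
  simp only [mul_add, add_mul, mul_sub, sub_mul, one_mul, mul_one, smul_mul_assoc,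
    mul_smul_comm, mul_neg, haa, hay, hya, hyy, Complex.ofReal_neg, smul_neg, neg_smul]
  have h2 : ((c : ℂ) * c + s * s) • a = a := by rw [hc, one_smul]
  rw [add_smul] at h2
  calc _ = 1 - a + (((c : ℂ) * c) • a + ((s : ℂ) * s) • a) := by module
    _ = 1 := by rw [h2]; abel


lemma RR_mem_unitary (h : Rot p q x) (c s : ℝ) (hcs : c ^ 2 + s ^ 2 = 1) :
    RR p q x c s ∈ unitary B := by
  rw [Unitary.mem_iff, star_RR h]
  refine ⟨?_, RR_mul h c s hcs⟩
  have := RR_mul h c (-s) (by rw [neg_sq]; exact hcs)
  rwa [neg_neg] at this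

/-- the unitary `1 - p + p z` -/
def ZZ (p z : B) : B := 1 - p + p * z

lemma ZZ_mem_unitary {p z : B} (sp : star p = p) (pp : p * p = p) (hz : z ∈ unitary B)
    (hzp : z * p = p * z) : ZZ p z ∈ unitary B := by
  have hz1 := (Unitary.mem_iff.1 hz).1
  have hz2 := (Unitary.mem_iff.1 hz).2
  have hpz : star z * p = p * star z := by
    have := congrArg star hzp
    rw [star_mul, star_mul, sp] at this
    exact this.symm
  have hs : star (ZZ p z) = 1 - p + p * star z := by
    unfold ZZ
    rw [star_add, star_sub, star_one, star_mul, sp, hpz]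
  have k1 : p * star z * (p * z) = p := by
    rw [mul_assoc, ← mul_assoc (star z), hpz, mul_assoc p, hz1, mul_one, pp]
  have k2 : p * z * (p * star z) = p := by
    rw [mul_assoc, ← mul_assoc z, hzp, mul_assoc p, hz2, mul_one, pp]
  have k3 : p * star z * p = p * star z := by rw [mul_assoc, hpz, ← mul_assoc, pp]
  have k4 : p * z * p = p * z := by rw [mul_assoc, hzp, ← mul_assoc, pp]
  have k5 : p * (p * z) = p * z := by rw [← mul_assoc, pp]
  have k6 : p * (p * star z) = p * star z := by rw [← mul_assoc, pp]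
  rw [Unitary.mem_iff, hs]
  unfold ZZ
  constructor
  · simp only [mul_add, add_mul, mul_sub, sub_mul, one_mul, mul_one, k1, k3, k5, pp]
    abel
  · simp only [mul_add, add_mul, mul_sub, sub_mul, one_mul, mul_one, k2, k4, k6, pp]
    abel

lemma ZZ_mem (S : StarSubalgebra ℂ B) {p z : B} (hp : p ∈ S) (hz : z ∈ S) : ZZ p z ∈ S :=
  add_mem (sub_mem (one_mem S) hp) (mul_mem hp hz)

lemma RR_mem (S : StarSubalgebra ℂ B) (hp : p ∈ S) (hq : q ∈ S) (hx : x ∈ S) (c s : ℝ) :
    RR p q x c s ∈ S :=
  add_mem (add_mem (sub_mem (one_mem S) (add_mem hp hq)) (S.smul_mem (add_mem hp hq) _))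
    (S.smul_mem (sub_mem hx (star_mem hx)) _)

end

theorem t_ROT : S_ROT := by
  intro B _ p q x z h hz hzp hzq hzx hzsx
  let th : unitInterval → ℝ := fun t => Real.pi / 2 * (t : ℝ)
  let R : unitInterval → B := fun t => RR p q x (Real.cos (th t)) (Real.sin (th t))
  have hR : ∀ t, R t ∈ unitary B := fun t =>
    RR_mem_unitary h _ _ (by rw [Real.cos_sq_add_sin_sq])
  have hcont : Continuous R := by
    have h1 : Continuous th := continuous_const.mul continuous_subtype_val
    have h2 : Continuous fun t => ((Real.cos (th t) : ℝ) : ℂ) :=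
      Complex.continuous_ofReal.comp (Real.continuous_cos.comp h1)
    have h3 : Continuous fun t => ((Real.sin (th t) : ℝ) : ℂ) :=
      Complex.continuous_ofReal.comp (Real.continuous_sin.comp h1)
    exact (continuous_const.add (h2.smul continuous_const)).add (h3.smul continuous_const)
  have hZ := ZZ_mem_unitary h.sp h.pp hz hzp
  have hR0 : R 0 = 1 := by
    show RR p q x (Real.cos (Real.pi / 2 * ((0 : unitInterval) : ℝ)))
      (Real.sin (Real.pi / 2 * ((0 : unitInterval) : ℝ))) = 1
    simp [RR]
  have hR1 : R 1 = 1 - (p + q) + (x - star x) := by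
    show RR p q x (Real.cos (Real.pi / 2 * ((1 : unitInterval) : ℝ)))
      (Real.sin (Real.pi / 2 * ((1 : unitInterval) : ℝ))) = _
    simp [RR]
  have hs1 : star (R 1) = 1 - (p + q) - (x - star x) := by
    rw [hR1, star_add, star_sub, star_sub, star_one, star_add, star_star, h.sp, h.sq]
    abel
  refine ⟨fun t => R t * ZZ p z * star (R t), (hcont.mul continuous_const).mul hcont.star,
    fun t => mul_mem (mul_mem (hR t) hZ) (Unitary.star_mem (hR t)), ?_, ?_, ?_⟩
  · show R 0 * ZZ p z * star (R 0) = _
    rw [hR0, star_one, one_mul, mul_one]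
    rfl
  · show R 1 * ZZ p z * star (R 1) = _
    have e1 : R 1 * p = x := by
      rw [hR1]
      simp only [add_mul, sub_mul, one_mul, h.pp, rot_q_p h, rot_x_p h, rot_sx_p h]
      abel
    have e2 : x * star (R 1) = q := by
      rw [hs1]
      simp only [mul_add, mul_sub, mul_one, rot_x_p h, rot_x_q h, rot_x_x h, h.xq]
      abel
    have e3 : R 1 * star (R 1) = 1 := (Unitary.mem_iff.1 (hR 1)).2
    have e4 : R 1 * (p * z) * star (R 1) = q * z := by
      rw [← mul_assoc, e1, ← hzx, mul_assoc, e2, hzq]
    unfold ZZ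
    rw [mul_add, add_mul, e4, mul_sub, mul_one, e1, sub_mul, e3, e2]
  · intro S hp hq hx hzS t
    exact mul_mem (mul_mem (RR_mem S hp hq hx _ _) (ZZ_mem S hp hzS))
      (star_mem (RR_mem S hp hq hx _ _))

theorem t_PATH : S_ROT → S_PATH := by
  intro hROT B _ s t z hC hz hzs hzt hzss hzst
  have hss := hC.ss
  have htt := hC.tt
  have hst := hC.st
  have hts : star t * s = 0 := by
    have := congrArg star hst
    rwa [star_mul, star_star, star_zero] at this
  have hsum := hC.sum
  -- cancellation rules
  have css : ∀ b : B, star s * (s * b) = b := fun b => by rw [← mul_assoc, hss, one_mul]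
  have ctt : ∀ b : B, star t * (t * b) = b := fun b => by rw [← mul_assoc, htt, one_mul]
  have cst : ∀ b : B, star s * (t * b) = 0 := fun b => by rw [← mul_assoc, hst, zero_mul]
  have cts : ∀ b : B, star t * (s * b) = 0 := fun b => by rw [← mul_assoc, hts, zero_mul]
  -- commutation rules
  have czs : ∀ b : B, z * (s * b) = s * (z * b) := fun b => by
    rw [← mul_assoc, hzs, mul_assoc]
  have czt : ∀ b : B, z * (t * b) = t * (z * b) := fun b => by
    rw [← mul_assoc, hzt, mul_assoc]
  have czss : ∀ b : B, z * (star s * b) = star s * (z * b) := fun b => by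
    rw [← mul_assoc, hzss, mul_assoc]
  have czst : ∀ b : B, z * (star t * b) = star t * (z * b) := fun b => by
    rw [← mul_assoc, hzst, mul_assoc]
  set p := s * star s with hp
  set q := t * star t with hq
  set p' := s * (s * (star s * star s)) with hp'
  set p'' := s * (t * (star t * star s)) with hp''
  obtain ⟨α, hαc, hαu, hα0, hα1, hαS⟩ := hROT B p q (t * star s) z
    (by
      constructor <;>
      simp only [hp, hq, star_mul, star_star, mul_assoc, css, ctt, cst, cts, hss, htt, hst, hts,
        mul_zero, mul_one]) hz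
    (by simp only [hp, mul_assoc, czs, hzss])
    (by simp only [hq, mul_assoc, czt, hzst])
    (by simp only [mul_assoc, czt, hzss])
    (by simp only [star_mul, star_star, mul_assoc, czs, hzst])
  obtain ⟨β, hβc, hβu, hβ0, hβ1, hβS⟩ := hROT B p' q (t * (star s * star s)) z
    (by
      constructor <;>
      simp only [hp', hq, star_mul, star_star, mul_assoc, css, ctt, cst, cts, hss, htt, hst, hts,
        mul_zero, mul_one]) hz
    (by simp only [hp', mul_assoc, czs, czss, hzss])
    (by simp only [hq, mul_assoc, czt, hzst])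
    (by simp only [mul_assoc, czt, czss, hzss])
    (by simp only [star_mul, star_star, mul_assoc, czs, hzst])
  obtain ⟨γ, hγc, hγu, hγ0, hγ1, hγS⟩ := hROT B p'' q (t * (star t * star s)) z
    (by
      constructor <;>
      simp only [hp'', hq, star_mul, star_star, mul_assoc, css, ctt, cst, cts, hss, htt, hst, hts,
        mul_zero, mul_one]) hz
    (by simp only [hp'', mul_assoc, czs, czt, czst, hzss])
    (by simp only [hq, mul_assoc, czt, hzst])
    (by simp only [mul_assoc, czt, czst, hzss])
    (by simp only [star_mul, star_star, mul_assoc, czs, czt, hzst])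
  have hpp : p' + p'' = p := by
    calc p' + p'' = s * ((s * star s + t * star t) * star s) := by
          simp only [hp', hp'', mul_add, add_mul, mul_assoc]
      _ = p := by rw [hsum, one_mul]
  have hp12 : p' * p'' = 0 := by
    simp only [hp', hp'', mul_assoc, css, cst, mul_zero]
  have hzp'' : z * p'' = p'' * z := by
    simp only [hp'', mul_assoc, czs, czt, czst, hzss]
  have hzq : z * q = q * z := by
    simp only [hq, mul_assoc, czt, hzst]
  have hpq0 : p * q = 0 := by
    simp only [hp, hq, mul_assoc, cst, mul_zero]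
  have hZZ : ZZ p' z * ZZ p'' z = ZZ p z := by
    have k1 : p' * z * p'' = 0 := by rw [mul_assoc, hzp'', ← mul_assoc, hp12, zero_mul]
    have k2 : p' * z * (p'' * z) = 0 := by rw [← mul_assoc, k1, zero_mul]
    have k3 : p' * (p'' * z) = 0 := by rw [← mul_assoc, hp12, zero_mul]
    rw [← hpp]
    unfold ZZ
    simp only [mul_add, add_mul, mul_sub, sub_mul, one_mul, mul_one, hp12, k1, k2, k3]
    abel
  have hpqz : ZZ p z * ZZ q z = z := by
    have k1 : p * z * q = 0 := by rw [mul_assoc, hzq, ← mul_assoc, hpq0, zero_mul]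
    have k2 : p * z * (q * z) = 0 := by rw [← mul_assoc, k1, zero_mul]
    have k3 : p * (q * z) = 0 := by rw [← mul_assoc, hpq0, zero_mul]
    have hq1 : q = 1 - p := by rw [← hsum]; abel
    have hz1 : p * z + q * z = z := by rw [← add_mul, hsum, one_mul]
    calc ZZ p z * ZZ q z = 1 - (p + q) + (p * z + q * z) := by
          unfold ZZ
          simp only [mul_add, add_mul, mul_sub, sub_mul, one_mul, mul_one, hpq0, k1, k2, k3]
          abel
      _ = z := by rw [hz1, hsum]; abel
  have hpu : ZZ p z ∈ unitary B := by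
    refine ZZ_mem_unitary ?_ ?_ hz ?_
    · simp only [hp, star_mul, star_star]
    · simp only [hp, mul_assoc, css]
    · simp only [hp, mul_assoc, czs, hzss]
  have hqu : ZZ q z ∈ unitary B := by
    refine ZZ_mem_unitary ?_ ?_ hz hzq
    · simp only [hq, star_mul, star_star]
    · simp only [hq, mul_assoc, ctt]
  have hα0' : α 0 = ZZ p z := hα0
  have hα1' : α 1 = ZZ q z := hα1
  have hβ0' : β 0 = ZZ p' z := hβ0
  have hβ1' : β 1 = ZZ q z := hβ1
  have hγ0' : γ 0 = ZZ p'' z := hγ0
  have hγ1' : γ 1 = ZZ q z := hγ1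
  have hpu1 := (Unitary.mem_iff.1 hpu).1
  have hpu2 := (Unitary.mem_iff.1 hpu).2
  have hqu1 := (Unitary.mem_iff.1 hqu).1
  have hqu2 := (Unitary.mem_iff.1 hqu).2
  let c : unitInterval → B := fun r => β r * γ r * star (α r)
  have hcu : ∀ r, c r ∈ unitary B := fun r =>
    mul_mem (mul_mem (hβu r) (hγu r)) (Unitary.star_mem (hαu r))
  have hcc : Continuous c := (hβc.mul hγc).mul hαc.star
  have hc0 : c 0 = 1 := by
    show β 0 * γ 0 * star (α 0) = 1
    rw [hα0', hβ0', hγ0', hZZ, hpu2]
  have hc1 : c 1 = ZZ q z := by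
    show β 1 * γ 1 * star (α 1) = _
    rw [hα1', hβ1', hγ1', mul_assoc, hqu2, mul_one]
  refine ⟨fun r => c r * star (α r) * ZZ p z * c r,
    ((hcc.mul hαc.star).mul continuous_const).mul hcc,
    fun r => mul_mem (mul_mem (mul_mem (hcu r) (Unitary.star_mem (hαu r))) hpu) (hcu r), ?_, ?_, ?_⟩
  · show c 0 * star (α 0) * ZZ p z * c 0 = 1
    rw [hc0, hα0', one_mul, mul_one, hpu1]
  · show c 1 * star (α 1) * ZZ p z * c 1 = z
    rw [hc1, hα1', hqu2, one_mul, hpqz]
  · intro S hs ht hzS r
    have hs' : star s ∈ S := star_mem hs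
    have ht' : star t ∈ S := star_mem ht
    have mp : p ∈ S := mul_mem hs hs'
    have mq : q ∈ S := mul_mem ht ht'
    have mp' : p' ∈ S := mul_mem hs (mul_mem hs (mul_mem hs' hs'))
    have mp'' : p'' ∈ S := mul_mem hs (mul_mem ht (mul_mem ht' hs'))
    have mα := hαS S mp mq (mul_mem ht hs') hzS r
    have mβ := hβS S mp' mq (mul_mem ht (mul_mem hs' hs')) hzS r
    have mγ := hγS S mp'' mq (mul_mem ht (mul_mem ht' hs')) hzS r
    have mc : c r ∈ S := mul_mem (mul_mem mβ mγ) (star_mem mα)
    exact mul_mem (mul_mem (mul_mem mc (star_mem mα)) (ZZ_mem S mp hzS)) mc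

section cuntz

/-- the standard basis -/
noncomputable def bas : HilbertBasis ℕ ℂ (L2 ℕ) :=
  HilbertBasis.ofRepr (LinearIsometryEquiv.refl ℂ (L2 ℕ))

lemma e_eq (n : ℕ) : (e n : L2 ℕ) = lp.single 2 n (1 : ℂ) := by
  unfold e
  have : (fun a b => Classical.propDecidable (a = b) : DecidableEq ℕ) = instDecidableEqNat :=
    Subsingleton.elim _ _
  rw [this]

lemma basis_eq (n : ℕ) : bas n = e n := by
  rw [← HilbertBasis.repr_symm_single, e_eq]
  rfl

/-- operator which sends `e n` to `e (f n)` -/
noncomputable def emb (f : ℕ → ℕ) (hf : Function.Injective f) : L2 ℕ →ₗᵢ[ℂ] L2 ℕ :=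
  (bas.orthonormal.comp f hf).orthogonalFamily.linearIsometry

lemma emb_e (f : ℕ → ℕ) (hf : Function.Injective f) (n : ℕ) : emb f hf (e n) = e (f n) := by
  rw [e_eq]
  unfold emb
  rw [OrthogonalFamily.linearIsometry_apply_single]
  simp [basis_eq]

lemma e_inner (m n : ℕ) : inner ℂ (e m : L2 ℕ) (e n) = if m = n then 1 else 0 := by
  have := bas.orthonormal
  rw [orthonormal_iff_ite] at this
  rw [← basis_eq, ← basis_eq]
  exact this m n

lemma ext_e {A B : Op ℕ} (h : ∀ n, A (e n) = B (e n)) : A = B := by
  have hd := bas.dense_span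
  refine ContinuousLinearMap.ext_on (s := Set.range bas) ?_ ?_
  · rw [← Submodule.dense_iff_topologicalClosure_eq_top] at hd
    exact hd
  · rintro _ ⟨n, rfl⟩
    rw [basis_eq]
    exact h n

lemma ext_c {u v : L2 ℕ} (h : ∀ k, inner ℂ (e k : L2 ℕ) u = inner ℂ (e k : L2 ℕ) v) : u = v := by
  apply lp.ext
  funext k
  have := h k
  rw [e_eq, lp.inner_single_left, lp.inner_single_left] at this
  simpa using this

lemma adj_mem (f : ℕ → ℕ) (hf : Function.Injective f) (n : ℕ) :
    (star (emb f hf).toContinuousLinearMap) (e (f n)) = e n := by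
  apply ext_c
  intro k
  rw [ContinuousLinearMap.star_eq_adjoint, ContinuousLinearMap.adjoint_inner_right]
  show inner ℂ (emb f hf (e k)) _ = _
  rw [emb_e, e_inner, e_inner]
  simp [hf.eq_iff]

lemma adj_not (f : ℕ → ℕ) (hf : Function.Injective f) (m : ℕ) (hm : ∀ n, f n ≠ m) :
    (star (emb f hf).toContinuousLinearMap) (e m) = 0 := by
  apply ext_c
  intro k
  rw [ContinuousLinearMap.star_eq_adjoint, ContinuousLinearMap.adjoint_inner_right]
  show inner ℂ (emb f hf (e k)) _ = _
  rw [emb_e, e_inner, if_neg (hm k), inner_zero_right]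

theorem t_CUNTZ : S_CUNTZ := by
  have h0 : Function.Injective (fun n : ℕ => 2 * n) := fun a b h => by simpa using h
  have h1 : Function.Injective (fun n : ℕ => 2 * n + 1) := fun a b h => by simpa using h
  refine ⟨ℕ, ⟨0⟩, (emb _ h0).toContinuousLinearMap, (emb _ h1).toContinuousLinearMap, ?_, ?_, ?_, ?_⟩
  · exact (ContinuousLinearMap.norm_map_iff_adjoint_comp_self _).1 (emb _ h0).norm_map
  · exact (ContinuousLinearMap.norm_map_iff_adjoint_comp_self _).1 (emb _ h1).norm_map
  · apply ext_e
    intro n
    show (star (emb _ h0).toContinuousLinearMap) (emb _ h1 (e n)) = 0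
    rw [emb_e]
    exact adj_not _ h0 (2 * n + 1) (fun k => by omega)
  · apply ext_e
    intro m
    rcases Nat.even_or_odd' m with ⟨n, rfl | rfl⟩
    · have e1 := adj_mem _ h0 n
      have e2 := adj_not _ h1 (2 * n) (fun k => by omega)
      show emb _ h0 ((star (emb _ h0).toContinuousLinearMap) (e (2 * n)))
        + emb _ h1 ((star (emb _ h1).toContinuousLinearMap) (e (2 * n))) = e (2 * n)
      rw [e1, e2, map_zero, add_zero, emb_e]
    · have e1 := adj_mem _ h1 n
      have e2 := adj_not _ h0 (2 * n + 1) (fun k => by omega)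
      show emb _ h0 ((star (emb _ h0).toContinuousLinearMap) (e (2 * n + 1)))
        + emb _ h1 ((star (emb _ h1).toContinuousLinearMap) (e (2 * n + 1))) = e (2 * n + 1)
      rw [e1, e2, map_zero, zero_add, emb_e]

end cuntz

end Run7.h648.BT
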